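import Pool.Agent.TH771.CX.NXClose
import Pool.Agent.H620R2.Gauge2.CoverE
import Pool.Agent.H620R2.Gauge2.CoverN
import Pool.Agent.H620R2.Gauge2.Null
import Pool.Agent.H620R2.GaugeX.KeyX
import Pool.Agent.H620R2.Gauge.P

/-!
# How many strings of a random oracle must be changed to give `NEXP` circuits of polynomial size?

An adversary who knows the random oracle `O` changes, for all large `n`, at most `g n` of the
strings of length at most `n`; the result is the oracle `A`.

* If, for every `ε > 0`, `g n ≤ 2 ^ (n ^ ε)` for infinitely many `n`, then for almost every `O` and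
  for all these `A`, relative to `A`: `NEXP` is not contained in `P/poly`, not even `EXP` in
  `PSPACE/poly` or `NP` in `coNP/poly`, and `PSPACE` is not contained in `PH/poly`.
* Otherwise every oracle `O` can be changed such that `NEXP ⊆ BPP ⊆ P/poly` relative to `A`.
-/

set_option autoImplicit false

namespace Pool.Agent.Results.MP_70d3b5_lc.ChangedStrings

open Filter MeasureTheory Pool.Agent.NPC
open Pool.Agent.H628R3.RO (randomOracle)
open Pool.Agent.H620R2.Gauge Pool.Agent.W900.CH Pool.Agent.TH771.CX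

theorem result (g : ℕ → ℝ) :
    ((∀ ε : ℝ, 0 < ε → ∃ᶠ n : ℕ in atTop, g n ≤ 2 ^ (n : ℝ) ^ ε) →
      ∀ᵐ O ∂randomOracle, ∀ A : Oracle, Close g O A →
        (∃ L, IsNEXP A L ∧ ¬ WithAdvice (IsP A) L) ∧
        (∃ L, IsNP A L ∧ ¬ WithAdvice (IsNP A) Lᶜ) ∧
        (∃ L, IsPSPACE A L ∧ ¬ IsPHpoly A L) ∧
        ∃ L, IsEXP A L ∧ ¬ WithAdvice (IsPSPACE A) L) ∧
    ((¬ ∀ ε : ℝ, 0 < ε → ∃ᶠ n : ℕ in atTop, g n ≤ 2 ^ (n : ℝ) ^ ε) →
      ∀ O : Oracle, ∃ A : Oracle, Close g O A ∧
        ∀ L, IsNEXP A L → IsBPP A L ∧ WithAdvice (IsP A) L) := by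
  refine ⟨fun hg => ?_, fun hg O => ?_⟩
  · have h1 := ae_far_P (S := {A : Oracle | WithAdvice (IsNP A) (hitLang A)ᶜ} ∪
        ({A : Oracle | IsPHpoly A (parLang A)} ∪
          {A : Oracle | WithAdvice (IsPSPACE A) (farLang A)}))
      (fun f hf => null_union (nullN hf _ fun A hA => hA)
        (null_union (null_of_frequently f hf _ fun A hA => hA) (nullE hf _ fun A hA => hA))) hg
    filter_upwards [h1] with O hO A hA
    have h2 := hO A hA
    simp only [Set.mem_union, Set.mem_ofPred_eq, not_or] at h2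
    obtain ⟨h3, h4, h5⟩ := h2
    refine ⟨?_, ⟨_, hitLang_np A, h3⟩, ⟨_, parLang_pspace A, h4⟩, ⟨_, farLang_exp A, h5⟩⟩
    exact ⟨_, (hitLang_np A).isNEXP, fun h => h3 h.compl_np⟩
  · push Not at hg
    obtain ⟨ε, hε, h⟩ := hg
    obtain ⟨A, h1, h2⟩ := exists_close_NX hε h O
    exact ⟨A, h1, fun L hL => ⟨h2 L hL, (h2 L hL).withAdvice⟩⟩

end Pool.Agent.Results.MP_70d3b5_lc.ChangedStrings
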