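import Pool.Agent.TH680.NX.Adv
import Pool.Agent.TH680.NX.Above
import Pool.Agent.TH680.DT.Empty

/-!
# `NEXP` and polynomial-size circuits relative to random oracles: the exact density threshold

The strings `x` are put into the oracle `A` independently, with a probability `q |x|` that depends on
the length only, where `q` is an arbitrary function (`rand q` is the distribution of `A`). Let
`rare q n = 2 ^ n * min (q n) (1 - q n)`, the expected number of the strings of length `n` for which
`A` has the less probable value. Let `Q` be any further oracle, and `common q` the oracle of the more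
probable values.

(1) If the series `∑ rare q n` diverges then, for every `Q` and almost all `A`, some language in
`NE` (nondeterministic time `2 ^ O(n)`) relative to `Q ⊕ A` is not in deterministic time
`2 ^ (2 ^ (n / 100))` with `2 ^ (n / 100)` bits of advice; so it is not in `EXP` with polynomial
advice, and `NEXP` is not contained in `P / poly`.

(2) If the series converges then, for every `Q` and almost all `A`, the oracles `Q ⊕ A` and
`Q ⊕ common q` give the same class `NEXP` and the same class `P / poly`.

(3) So there is a law: for every `q` and every `Q`, almost surely, `NEXP` is contained in `P / poly`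
relative to `Q ⊕ A` if and only if the series converges and `NEXP` is contained in `P / poly`
relative to `Q ⊕ common q`.

(4) For every `q` there is an oracle `Q` such that, almost surely, `NEXP` is contained in `P / poly`
relative to `Q ⊕ A` if and only if the series converges.

The proof of (1). For a length `N` consider `2 ^ n` groups of `k` strings of length `N`; a group is a
witness if all its bits are the less probable ones. Here `n ≥ √N`, and the expected number of the
witnesses is at most `1 / 2` and at least `min (rare q N) (1 / 4)`. The language asks whether there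
is a witness whose `i`-th bit is one; the input consists of the binary notations of `i, n, k, N`,
its length is at most `20 log N + O(1)`, so that the witness is an object of exponential length. If
there is no witness, then for all but a small part of the groups `w` the algorithms with advice give
a wrong answer after `w` has been made a witness: if the group `w` is not asked for, `w` can be read
off from the advice string. By the engine of the hand-in `MP_28250c_lc`/`MP_609cce_lc`
(`TH680.OR.ae_often`) this implies that the answers are wrong for infinitely many lengths.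

The proof of (4): a probabilistic coding above `common q`, by the stage construction of the
library (`H620R2.GaugeX`, the one behind the oracles with `NEXP ⊆ BPP`).
-/

set_option autoImplicit false

namespace Pool.Agent.Results.MP_70d3b5_lc.DensityThreshold

open MeasureTheory Pool.Agent.NPC Pool.Agent.H620R2.Gauge Pool.Agent.H622R2.Exp
open Pool.Agent.W900.IE (indep)

/-- The distribution of the random oracle: the strings `x` are in the oracle with probability
`q |x|`, independently. -/
noncomputable def rand (q : ℕ → unitInterval) : Measure Oracle := indep (fun x => q x.length)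

/-- The expected number of the strings of length `n` for which the random oracle has the less
probable value. -/
noncomputable def rare (q : ℕ → unitInterval) (n : ℕ) : ℝ := 2 ^ n * min (q n : ℝ) (1 - q n)

/-- The oracle of the more probable values. -/
noncomputable def common (q : ℕ → unitInterval) : Oracle := fun x =>
  decide ((1 / 2 : ℝ) < q x.length)

/-- The disjoint union of the oracles `Q` and `A`. -/
def join (Q A : Oracle) : Oracle
  | [] => false
  | false :: z => Q z
  | true :: z => A z

/-- The language `L` is in `P / poly` relative to `A`. -/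
def InPpoly (A : Oracle) (L : Set (List Bool)) : Prop := WithAdvice (IsP A) L

/-- `NEXP` is contained in `P / poly`, relative to `A`. -/
def Small (A : Oracle) : Prop := ∀ L, InNTime Pol A L → InPpoly A L

/-- Deterministic time `2 ^ (2 ^ (n / 100))` with `2 ^ (n / 100)` bits of advice relative to `A`:
for all large `n`, the algorithm `M` with the advice `h n` decides `L` on the inputs of length `n`
within `2 ^ (2 ^ (n / 100))` rounds. -/
def InTimeAdv (A : Oracle) (L : Set (List Bool)) : Prop :=
  ∃ (M : Alg) (h : ℕ → List Bool), ∀ᶠ n : ℕ in Filter.atTop, (h n).length ≤ 2 ^ (n / 100) ∧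
    ∀ x : List Bool, x.length = n →
      ∃ z : List Bool, M.run A (pairBits x (h n)) (2 ^ 2 ^ (n / 100)) [] = some z ∧
        (x ∈ L ↔ z = [true])

theorem join_eq : TH680.OD.join = join := by
  funext Q A x
  rcases x with _ | ⟨b, z⟩
  · rfl
  · cases b <;> rfl

theorem rare_eq (q : ℕ → unitInterval) : W900.IE.dev (TH680.DT.pq q) = rare q := by
  funext n
  unfold W900.IE.dev TH680.DT.pq rare
  have h : ∀ v : Fin n → Bool, min (q (List.ofFn v).length : ℝ) (1 - q (List.ofFn v).length) =
      min (q n : ℝ) (1 - q n) := fun v => by rw [List.length_ofFn]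
  rw [Finset.sum_congr rfl fun v _ => h v, Finset.sum_const, nsmul_eq_mul, Finset.card_univ]
  simp

theorem poly_join {E : List Bool → Bool} (hE : Poly E) :
    Poly (fun x : List Bool => decide (x.head? = some true) && E x.tail) :=
  Poly.and (Poly.decide_eq (Poly.head? Poly.id) (NPC.Poly.const _)) (hE.comp (Poly.tail Poly.id))

theorem join_xor (Q : Oracle) {A D : Oracle} {E : List Bool → Bool}
    (h : ∀ x, D x = (A x ^^ E x)) (x : List Bool) :
    join Q D x = (join Q A x ^^ (decide (x.head? = some true) && E x.tail)) := by
  rcases x with _ | ⟨b, z⟩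
  · rfl
  · cases b with
    | false => simp [join]
    | true =>
      show D z = _
      rw [h]
      simp [join]

theorem same {O O' : Oracle} {E : List Bool → Bool} (hE : Poly E)
    (h : ∀ x, O' x = (O x ^^ E x)) (L : Set (List Bool)) :
    (InNTime Pol O L ↔ InNTime Pol O' L) ∧ (InPpoly O L ↔ InPpoly O' L) := by
  have h1 := TH680.DT.same_isFP hE h
  have h2 : ∀ L, IsP O L ↔ IsP O' L := fun L => by
    unfold IsP
    simp only [h1]
  refine ⟨?_, ?_⟩
  · unfold InNTime
    simp only [h1]
  · unfold InPpoly WithAdvice
    simp only [h2]

theorem isEXP_of_p {O : Oracle} {L : Set (List Bool)} (h : IsP O L) : IsEXP O L := by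
  obtain ⟨V, ⟨M, hM⟩, hL⟩ := h
  refine ⟨M, fun x => ⟨V x, ?_, hL x⟩⟩
  exact Alg.run_mono M O _ _ _ _ _ Nat.lt_two_pow_self.le (hM x)

/-- **`NEXP` and polynomial-size circuits relative to random oracles: the exact density
threshold.** -/
theorem result (q : ℕ → unitInterval) :
    (¬ Summable (rare q) → ∀ Q : Oracle, ∀ᵐ A ∂(rand q), ∃ L, InNTime Lin (join Q A) L ∧
      ¬ InTimeAdv (join Q A) L ∧ ¬ WithAdvice (IsEXP (join Q A)) L ∧ ¬ InPpoly (join Q A) L) ∧
    (Summable (rare q) → ∀ Q : Oracle, ∀ᵐ A ∂(rand q), ∀ L : Set (List Bool),
      (InNTime Pol (join Q A) L ↔ InNTime Pol (join Q (common q)) L) ∧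
      (InPpoly (join Q A) L ↔ InPpoly (join Q (common q)) L)) ∧
    (∀ Q : Oracle, ∀ᵐ A ∂(rand q),
      (Small (join Q A) ↔ (Summable (rare q) ∧ Small (join Q (common q))))) ∧
    ∃ Q : Oracle, ∀ᵐ A ∂(rand q), (Small (join Q A) ↔ Summable (rare q)) := by
  have h1 : ¬ Summable (rare q) → ∀ Q : Oracle, ∀ᵐ A ∂(rand q), ∃ L,
      InNTime Lin (join Q A) L ∧ ¬ InTimeAdv (join Q A) L ∧
        ¬ WithAdvice (IsEXP (join Q A)) L ∧ ¬ InPpoly (join Q A) L := by
    intro h Q
    have h2 := TH680.NX.ae_adv (q := q) h Q
    rw [join_eq] at h2
    filter_upwards [h2] with A hA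
    obtain ⟨L, hL, hA⟩ := hA
    have h3 : ¬ WithAdvice (IsEXP (join Q A)) L := fun h3 => hA (TH680.NX.inTimeAdv_of_exp h3)
    refine ⟨L, hL, hA, h3, fun h4 => h3 ?_⟩
    obtain ⟨L', g, p, h5, h6, h7⟩ := h4
    exact ⟨L', g, p, isEXP_of_p h5, h6, h7⟩
  have h2 : Summable (rare q) → ∀ Q : Oracle, ∀ᵐ A ∂(rand q), ∀ L : Set (List Bool),
      (InNTime Pol (join Q A) L ↔ InNTime Pol (join Q (common q)) L) ∧
      (InPpoly (join Q A) L ↔ InPpoly (join Q (common q)) L) := by
    intro h Q
    rw [← rare_eq] at h
    filter_upwards [TH680.DT.ae_same h] with A hA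
    have hx : ∀ x, common q x = (A x ^^ (A x ^^ common q x)) := fun x => by
      cases A x <;> cases common q x <;> rfl
    exact same (poly_join hA) (join_xor Q hx)
  have h3 : ∀ Q : Oracle, ∀ᵐ A ∂(rand q),
      (Small (join Q A) ↔ (Summable (rare q) ∧ Small (join Q (common q)))) := by
    intro Q
    by_cases hs : Summable (rare q)
    · filter_upwards [h2 hs Q] with A hA
      unfold Small
      simp only [hs, true_and]
      exact forall_congr' fun L => by rw [(hA L).1, (hA L).2]
    · filter_upwards [h1 hs Q] with A hA
      obtain ⟨L, hL, _, _, h5⟩ := hA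
      refine ⟨fun h => absurd (h L ?_) h5, fun h => absurd h.1 hs⟩
      obtain ⟨V, hV, p, _, h6⟩ := hL
      exact ⟨V, hV, p, Set.mem_univ _, h6⟩
  refine ⟨h1, h2, h3, ?_⟩
  obtain ⟨Q, hQ⟩ := TH680.NX.exists_above_nexp (common q)
  rw [join_eq] at hQ
  refine ⟨Q, ?_⟩
  filter_upwards [h3 Q] with A hA
  rw [hA]
  exact ⟨fun h => h.1, fun h => ⟨h, hQ⟩⟩

end Pool.Agent.Results.MP_70d3b5_lc.DensityThreshold
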