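import Pool.Agent.TH683.GP.Fin
import Pool.Agent.TH678.PN.Main

/-!
# How many oracles make `NEXP` have circuits of polynomial size?

Relative to some oracles `NEXP` is contained in `P/poly` (Heller; Wilson; Buhrman, Fortnow and
Thierauf), although `MA_EXP ⊄ P/poly` relative to every oracle. For every gauge `f`, the set of the
oracles `A` with `NEXP ⊆ P/poly` relative to `A` is a null set for `f` if and only if for every
`ε > 0` there are infinitely many `N` with `f N ≤ 2 ^ ((log N) ^ ε)`. The same holds for every set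
`O` of oracles

* that contains all the oracles relative to which `NEXP ⊆ BPP` and `BPP ⊄ NP`, and
* relative to each of whose members one of `NP ⊆ coNP/poly`, `PSPACE ⊆ PH/poly`,
  `EXP ⊆ PSPACE/poly` holds;

for instance for the oracles with `NEXP ⊆ P/poly` and `P ≠ NP`, for those with `NEXP = BPP`, for
those with `NEXP ⊆ NP/poly ∩ coNP/poly` and for those with `NP ⊆ P/poly` or `EXP ⊆ PSPACE/poly`.
-/

set_option autoImplicit false

namespace Pool.Agent.Results.MP_70d3b5_lc.GaugeThreshold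

open Pool.Agent.NPC Pool.Agent.H620R2.Gauge Pool.Agent.H622R2 Pool.Agent.TH683.GP

/-- the general form -/
theorem key (f : ℕ → ℝ) (O : Set Oracle)
    (h1 : ∀ A : Oracle, (∀ L, IsNEXP A L → IsBPP A L) → (∃ L, IsBPP A L ∧ ¬ IsNP A L) → A ∈ O)
    (h2 : ∀ A ∈ O, (∀ L, IsNP A L → WithAdvice (IsNP A) Lᶜ) ∨
      (∀ L, IsPSPACE A L → IsPHpoly A L) ∨ (∀ L, IsEXP A L → WithAdvice (IsPSPACE A) L)) :
    Null f O ↔
      ∀ ε : ℝ, 0 < ε → ∃ᶠ N : ℕ in Filter.atTop, f N ≤ 2 ^ (Real.logb 2 N) ^ ε := by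
  constructor
  · intro hn
    by_contra hcon
    exact not_null_nx hcon O h1 hn
  · intro hf
    have hN : Null f {A : Oracle | WithAdvice (IsNP A) (hitLang A)ᶜ} :=
      nullN hf _ fun A hA => hA
    have hE : Null f {A : Oracle | WithAdvice (IsPSPACE A) (farLang A)} :=
      nullE hf _ fun A hA => hA
    have hP : Null f {A : Oracle | IsPHpoly A (parLang A)} :=
      null_of_frequently f hf _ fun A hA => hA
    refine (null_union hN (null_union hP hE)).mono fun A hA => ?_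
    rcases h2 A hA with h | h | h
    · exact Or.inl (h _ (hitLang_np A))
    · exact Or.inr (Or.inl (h _ (parLang_pspace A)))
    · exact Or.inr (Or.inr (h _ (farLang_exp A)))

theorem result (f : ℕ → ℝ) :
    (∀ O : Set Oracle,
      (∀ A : Oracle, (∀ L, IsNEXP A L → IsBPP A L) → (∃ L, IsBPP A L ∧ ¬ IsNP A L) → A ∈ O) →
      (∀ A ∈ O, (∀ L, IsNP A L → WithAdvice (IsNP A) Lᶜ) ∨
        (∀ L, IsPSPACE A L → IsPHpoly A L) ∨ (∀ L, IsEXP A L → WithAdvice (IsPSPACE A) L)) →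
      (Null f O ↔
        ∀ ε : ℝ, 0 < ε → ∃ᶠ N : ℕ in Filter.atTop, f N ≤ 2 ^ (Real.logb 2 N) ^ ε)) ∧
    (Null f {A : Oracle | ∀ L, IsNEXP A L → WithAdvice (IsP A) L} ↔
      ∀ ε : ℝ, 0 < ε → ∃ᶠ N : ℕ in Filter.atTop, f N ≤ 2 ^ (Real.logb 2 N) ^ ε) ∧
    (Null f {A : Oracle | (∀ L, IsNEXP A L → WithAdvice (IsP A) L) ∧
        ∃ L, IsBPP A L ∧ ¬ IsNP A L} ↔
      ∀ ε : ℝ, 0 < ε → ∃ᶠ N : ℕ in Filter.atTop, f N ≤ 2 ^ (Real.logb 2 N) ^ ε) := by
  refine ⟨key f, key f _ (fun A hA _ L hL => (hA L hL).withAdvice) fun A hA => ?_,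
    key f _ (fun A hA h => ⟨fun L hL => (hA L hL).withAdvice, h⟩) fun A hA => ?_⟩
  · exact Or.inl fun L hL => (hA L hL.isNEXP).compl_np
  · exact Or.inl fun L hL => (hA.1 L hL.isNEXP).compl_np

end Pool.Agent.Results.MP_70d3b5_lc.GaugeThreshold
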