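import Pool.Agent.TH762.PP.Law

/-!
# `NEXP` and polynomial-size circuits: excluding one vector of answers

`InNEXP` is `NEXP` (certificates of length at most `2 ^ p(n)`, verified in time polynomial in the
lengths of the input and the certificate), `InPpoly` is `P/poly` (polynomial time with advice strings
of polynomial length which depend on the length of the input only; equivalently, circuits of
polynomial size), `InP` is `P`, all on Mathlib's `Turing.FinTM2` machines; `Reduces` is
polynomial-time many-one reducibility.

Let `A` be `NEXP`-hard and consider `m` questions `x₁ ∈ A`, ..., `x_m ∈ A` for strings of length at
most `n`, where `m = m (n)` is any number at most polynomial in `n`. Their answers form a vector in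
`{0, 1} ^ m`. Let a family of polynomially many vectors be given which is strongly explicit: the
entries can be computed in polynomial time from the binary codes of `m`, the number of the vector,
and the position (`L` is the set of the triples with the entry `1`).

`FeasiblePoly (Exclude L A)`: circuits of polynomial size find from the questions the number of a
vector of the family which is not the vector of the answers. `FeasiblePoly (ExcludeCount A)`: they
find one of the `m + 1` numbers `0, ..., m` which is not the number of positive answers.
`FeasiblePoly (NotOnly A)`: they find an index `i` such that `x_i` is not the only positive answer.
`CountQuestionsPoly A`: the number of positive answers can be computed in polynomial time, with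
advice of polynomial length and with at most `⌊log₂ m⌋` adaptive questions to some oracle, which may
be any set whatsoever.

Each of these is possible for some `NEXP`-hard set if and only if `NEXP` is contained in `P/poly`.
So if `NEXP` is not contained in `P/poly`, then for every `NEXP`-hard set, every such family and every
polynomial there are infinitely many lengths at which circuits of this size fail to say even that one
single vector of the family is not the vector of the answers, for any number `m` of questions.
-/

set_option autoImplicit false

namespace Pool.Agent.Results.MP_70d3b5_lc.NonuniformExclusion

open Pool.Agent.NPC Pool.Agent.TH684.EX Pool.Agent.TH762.PP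
open Pool.Agent.W901.NU (InPpoly)
open Pool.Agent.H660R2.NX (InNEXP)

/-- **Exclusion of one vector of answers for `NEXP`-hard sets by circuits of polynomial size** is
possible if and only if `NEXP` is contained in `P/poly`. -/
theorem result : List.TFAE
    [∀ L : Set (List Bool), InNEXP L → InPpoly L,
      ∃ A L : Set (List Bool), (∀ L', InNEXP L' → Reduces L' A) ∧ InP L ∧
        FeasiblePoly (Exclude L A),
      ∃ A : Set (List Bool), (∀ L', InNEXP L' → Reduces L' A) ∧ FeasiblePoly (ExcludeCount A),
      ∃ A : Set (List Bool), (∀ L', InNEXP L' → Reduces L' A) ∧ CountQuestionsPoly A,
      ∃ A : Set (List Bool), (∀ L', InNEXP L' → Reduces L' A) ∧ FeasiblePoly (NotOnly A)] :=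
  law_nexp

end Pool.Agent.Results.MP_70d3b5_lc.NonuniformExclusion
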